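import Pool.Agent.Q35.SM.Stm

/-!
# Project SM (helper35), job SM-A: elimination
-/

set_option autoImplicit false

namespace Pool.Agent.Q261.SMA

open Finset Function MvPolynomial
open Pool.Agent.Q35.SM

section

variable {K : Type} [Field K] {ι : Type} [Fintype ι] [DecidableEq ι] {n : ι → ℕ} {r : ℕ}

/-- the part of an exponent outside block `i` -/
noncomputable def off (i : ι) (m : Var n →₀ ℕ) : Var n →₀ ℕ := m.filter (fun v => v.1 ≠ i)

/-- the product of the linear forms -/
noncomputable def lin (i : ι) (M : Matrix (Fin (n i + 1)) (Fin r) K) (m : Var n →₀ ℕ) :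
    MvPolynomial (Fin r) K :=
  ∏ a, (∑ b, C (M a b) * X b) ^ m ⟨i, a⟩

/-- the coefficients -/
noncomputable def ent (i : ι) (M : Matrix (Fin (n i + 1)) (Fin r) K) (g : Pol K n)
    (β : Fin r →₀ ℕ) : Pol K n :=
  ∑ m ∈ g.support, monomial (off i m) (coeff m g * coeff β (lin i M m))

/-- the coefficients of the multiples -/
noncomputable def entc (i : ι) (M : Matrix (Fin (n i + 1)) (Fin r) K) (g : Pol K n)
    (γ β : Fin r →₀ ℕ) : Pol K n := if γ ≤ β then ent i M g (β - γ) else 0

/-- the specialised polynomial -/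
noncomputable def sp (i : ι) (M : Matrix (Fin (n i + 1)) (Fin r) K) {F : Type} [Field F]
    [Algebra K F] (x : Vs F n) (g : Pol K n) : MvPolynomial (Fin r) F :=
  pv (MvPolynomial (Fin r) F) g
    (update (fun l a => C (x l a)) i (fun a => ∑ b, C (algebraMap K F (M a b)) * X b))

lemma lin_hom (i : ι) (M : Matrix (Fin (n i + 1)) (Fin r) K) (m : Var n →₀ ℕ) :
    (lin i M m).IsHomogeneous (∑ a, m ⟨i, a⟩) := by
  unfold lin
  refine IsHomogeneous.prod _ _ _ fun a _ => ?_
  have h1 : (∑ b, C (M a b) * X b : MvPolynomial (Fin r) K).IsHomogeneous 1 :=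
    IsHomogeneous.sum _ _ _ fun b _ => isHomogeneous_C_mul_X _ _
  simpa using h1.pow (m ⟨i, a⟩)

lemma prod_var {A : Type} [CommMonoid A] (f : Var n → A) (i : ι) :
    ∏ v, f v = (∏ a, f ⟨i, a⟩) * ∏ l ∈ univ.erase i, ∏ a, f ⟨l, a⟩ := by
  rw [Fintype.prod_sigma, ← Finset.mul_prod_erase univ _ (mem_univ i)]

lemma pv_eq (A : Type) [CommRing A] [Algebra K A] (g : Pol K n) (x : Vs A n) :
    pv A g x = ∑ m ∈ g.support, algebraMap K A (coeff m g) * ∏ v : Var n, x v.1 v.2 ^ m v := by
  unfold pv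
  rw [aeval_def, eval₂_eq']

lemma pv_ent (i : ι) (M : Matrix (Fin (n i + 1)) (Fin r) K) {F : Type} [Field F]
    [Algebra K F] (x : Vs F n) (g : Pol K n) (β : Fin r →₀ ℕ) :
    coeff β (sp i M x g) = pv F (ent i M g β) x := by
  unfold sp ent
  rw [pv_eq]
  have h1 : pv F (∑ m ∈ g.support, monomial (off i m) (coeff m g * coeff β (lin i M m))) x =
      ∑ m ∈ g.support, algebraMap K F (coeff m g * coeff β (lin i M m)) *
        ∏ v : Var n, x v.1 v.2 ^ off i m v := by
    unfold pv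
    rw [map_sum]
    refine Finset.sum_congr rfl fun m _ => ?_
    rw [aeval_monomial, Finsupp.prod_fintype _ _ (fun v => pow_zero _)]
  rw [h1, coeff_sum]
  refine Finset.sum_congr rfl fun m _ => ?_
  rw [prod_var _ i, prod_var _ i]
  have h2 : ∏ a, x i a ^ off i m ⟨i, a⟩ = 1 := by
    refine Finset.prod_eq_one fun a _ => ?_
    unfold off
    rw [Finsupp.filter_apply_neg _ _ (by simp), pow_zero]
  have h3 : ∀ l ∈ univ.erase i, ∏ a, x l a ^ off i m ⟨l, a⟩ = ∏ a, x l a ^ m ⟨l, a⟩ := by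
    intro l hl
    refine Finset.prod_congr rfl fun a _ => ?_
    unfold off
    rw [Finsupp.filter_apply_pos _ _ (by exact Finset.ne_of_mem_erase hl)]
  dsimp only
  rw [h2, one_mul, Finset.prod_congr rfl h3]
  have h4 : ∀ l ∈ univ.erase i, ∏ a, (update (fun l a => (C (x l a) : MvPolynomial (Fin r) F)) i
      (fun a => ∑ b, C (algebraMap K F (M a b)) * X b)) l a ^ m ⟨l, a⟩ =
      C (∏ a, x l a ^ m ⟨l, a⟩) := by
    intro l hl
    rw [update_of_ne (Finset.ne_of_mem_erase hl), map_prod]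
    exact Finset.prod_congr rfl fun a _ => by rw [map_pow]
  rw [Finset.prod_congr rfl h4, ← map_prod]
  have h5 : ∏ a, (update (fun l a => (C (x l a) : MvPolynomial (Fin r) F)) i
      (fun a => ∑ b, C (algebraMap K F (M a b)) * X b)) i a ^ m ⟨i, a⟩ =
      map (algebraMap K F) (lin i M m) := by
    rw [update_self]
    unfold lin
    rw [map_prod]
    refine Finset.prod_congr rfl fun a _ => ?_
    rw [map_pow, map_sum]
    congr 1
    refine Finset.sum_congr rfl fun b _ => ?_
    rw [map_mul, map_C, map_X]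
  rw [h5, IsScalarTower.algebraMap_apply K F (MvPolynomial (Fin r) F), algebraMap_eq, coeff_C_mul,
    mul_comm (map (algebraMap K F) (lin i M m)), coeff_C_mul, coeff_map, map_mul]
  ring

lemma sp_hom (i : ι) (M : Matrix (Fin (n i + 1)) (Fin r) K) {F : Type} [Field F]
    [Algebra K F] (x : Vs F n) (g : Pol K n) {d : ℕ} (hd : ∀ m ∈ g.support, ∑ a, m ⟨i, a⟩ = d) :
    (sp i M x g).IsHomogeneous d := by
  intro β hβ
  by_contra hne
  apply hβ
  rw [pv_ent]
  have h1 : ent i M g β = 0 := by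
    unfold ent
    refine Finset.sum_eq_zero fun m hm => ?_
    have h2 : coeff β (lin i M m) = 0 := by
      by_contra h3
      have h4 := lin_hom i M m h3
      rw [hd m hm] at h4
      exact hne h4
    rw [h2, mul_zero, monomial_zero]
  rw [h1]
  unfold pv
  rw [map_zero]

lemma pv_entc (i : ι) (M : Matrix (Fin (n i + 1)) (Fin r) K) {F : Type} [Field F]
    [Algebra K F] (x : Vs F n) (g : Pol K n) (γ β : Fin r →₀ ℕ) :
    coeff β (monomial γ 1 * sp i M x g) = pv F (entc i M g γ β) x := by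
  rw [coeff_monomial_mul']
  unfold entc
  split_ifs with h
  · rw [one_mul, pv_ent]
  · unfold pv
    rw [map_zero]

lemma aeval_sp (i : ι) (M : Matrix (Fin (n i + 1)) (Fin r) K) {F : Type} [Field F]
    [Algebra K F] (x : Vs F n) (g : Pol K n) (z : Fin r → AlgebraicClosure F) :
    aeval z (sp i M x g) = pv (AlgebraicClosure F) g
      (update (fun l a => algebraMap F (AlgebraicClosure F) (x l a)) i
        (fun a => ∑ b, algebraMap K (AlgebraicClosure F) (M a b) * z b)) := by
  unfold sp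
  rw [pv_eq, pv_eq, map_sum]
  refine Finset.sum_congr rfl fun m _ => ?_
  rw [map_mul, map_prod]
  congr 1
  · rw [IsScalarTower.algebraMap_apply K F (MvPolynomial (Fin r) F), algebraMap_eq, aeval_C,
      ← IsScalarTower.algebraMap_apply]
  · refine Finset.prod_congr rfl fun v _ => ?_
    rw [map_pow]
    congr 1
    obtain ⟨l, a⟩ := v
    dsimp only
    by_cases h : l = i
    · subst h
      rw [update_self, update_self, map_sum]
      refine Finset.sum_congr rfl fun b _ => ?_
      rw [map_mul, aeval_C, aeval_X, ← IsScalarTower.algebraMap_apply]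
    · rw [update_of_ne h, update_of_ne h, aeval_C]

/-! ### multihomogeneity -/

/-- the weights -/
def wgt : Var n → (ι → ℕ) := fun v => Pi.single v.1 1

omit [Fintype ι] in
lemma weight_eq [Fintype ι] (m : Var n →₀ ℕ) : Finsupp.weight (wgt (n := n)) m = fun l => ∑ a, m ⟨l, a⟩ := by
  rw [Finsupp.weight_apply, Finsupp.sum_fintype _ _ (fun v => by exact zero_smul ℕ _), Fintype.sum_sigma]
  funext l
  rw [Finset.sum_apply]
  rw [Finset.sum_eq_single l]
  · rw [Finset.sum_apply]
    refine Finset.sum_congr rfl fun a _ => ?_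
    unfold wgt
    simp
  · intro l' _ hl'
    rw [Finset.sum_apply]
    refine Finset.sum_eq_zero fun a _ => ?_
    unfold wgt
    simp [Pi.single_eq_of_ne (Ne.symm hl')]
  · intro h
    exact absurd (mem_univ _) h

lemma MH_of {g : Pol K n} {δ : ι → ℕ} (h : IsWeightedHomogeneous (wgt (n := n)) g δ) : MH g := by
  refine ⟨δ, fun m hm l => ?_⟩
  have h1 := h (mem_support_iff.1 hm)
  rw [weight_eq] at h1
  exact congrFun h1 l

lemma ent_hom (i : ι) (M : Matrix (Fin (n i + 1)) (Fin r) K) (g : Pol K n) {δ : ι → ℕ}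
    (hδ : ∀ m ∈ g.support, ∀ l, ∑ a, m ⟨l, a⟩ = δ l) (β : Fin r →₀ ℕ) :
    IsWeightedHomogeneous (wgt (n := n)) (ent i M g β) (update δ i 0) := by
  unfold ent
  refine IsWeightedHomogeneous.sum _ _ _ fun m hm => ?_
  refine isWeightedHomogeneous_monomial _ _ _ ?_
  rw [weight_eq]
  funext l
  by_cases h : l = i
  · subst h
    rw [update_self]
    refine Finset.sum_eq_zero fun a _ => ?_
    unfold off
    rw [Finsupp.filter_apply_neg _ _ (by simp)]
  · rw [update_of_ne h, ← hδ m hm l]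
    refine Finset.sum_congr rfl fun a _ => ?_
    unfold off
    rw [Finsupp.filter_apply_pos _ _ (by exact h)]

lemma entc_hom (i : ι) (M : Matrix (Fin (n i + 1)) (Fin r) K) (g : Pol K n) {δ : ι → ℕ}
    (hδ : ∀ m ∈ g.support, ∀ l, ∑ a, m ⟨l, a⟩ = δ l) (γ β : Fin r →₀ ℕ) :
    IsWeightedHomogeneous (wgt (n := n)) (entc i M g γ β) (update δ i 0) := by
  unfold entc
  split_ifs
  · exact ent_hom i M g hδ _
  · exact isWeightedHomogeneous_zero _ _ _

lemma entc_supp (i : ι) (M : Matrix (Fin (n i + 1)) (Fin r) K) (g : Pol K n) (γ β : Fin r →₀ ℕ)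
    (T : Set (Var n)) (hT : ∀ v ∈ g.vars, v.1 ≠ i → v ∈ T) :
    entc i M g γ β ∈ supported K T := by
  unfold entc
  split_ifs
  · unfold ent
    refine Subalgebra.sum_mem _ fun m hm => ?_
    rw [mem_supported]
    intro v hv
    rw [Finset.mem_coe, mem_vars] at hv
    obtain ⟨d, hd, hvd⟩ := hv
    have hd' := support_monomial_subset hd
    rw [Finset.mem_singleton] at hd'
    subst hd'
    unfold off at hvd
    rw [Finsupp.support_filter, Finset.mem_filter] at hvd
    exact hT v (mem_vars v |>.2 ⟨m, hm, hvd.1⟩) hvd.2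
  · exact Subalgebra.zero_mem _

/-- the exponents of degree `e` -/
abbrev Rw (r e : ℕ) : Type := {β : Fin r →₀ ℕ // β ∈ (univ : Finset (Fin r)).finsuppAntidiag e}

lemma mem_Rw {r e : ℕ} (β : Fin r →₀ ℕ) :
    β ∈ (univ : Finset (Fin r)).finsuppAntidiag e ↔ β.degree = e := by
  rw [mem_finsuppAntidiag, Finsupp.degree_eq_sum]
  simp

/-- the minors -/
noncomputable def mnr (i : ι) (M : Matrix (Fin (n i + 1)) (Fin r) K) (e : ℕ)
    (j : Rw r e → Pol K n × (Fin r →₀ ℕ)) : Pol K n :=
  Matrix.det (Matrix.of fun β β' : Rw r e => entc i M (j β').1 (j β').2 β.1)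

lemma mnr_hom (i : ι) (M : Matrix (Fin (n i + 1)) (Fin r) K) (e : ℕ)
    (j : Rw r e → Pol K n × (Fin r →₀ ℕ)) (δ : Pol K n → ι → ℕ)
    (hj : ∀ β, ∀ m ∈ (j β).1.support, ∀ l, ∑ a, m ⟨l, a⟩ = δ (j β).1 l) :
    MH (mnr i M e j) := by
  unfold mnr
  rw [Matrix.det_apply']
  refine MH_of (δ := ∑ β, update (δ (j β).1) i 0) ?_
  refine IsWeightedHomogeneous.sum _ _ _ fun σ _ => ?_
  have h1 : (((Equiv.Perm.sign σ : ℤ) : Pol K n)) = C (((Equiv.Perm.sign σ : ℤ) : K)) := by
    rw [map_intCast]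
  rw [h1]
  refine IsWeightedHomogeneous.C_mul ?_ _
  exact IsWeightedHomogeneous.prod _ _ _ fun β _ => entc_hom i M _ (hj β) _ _

lemma mnr_supp (i : ι) (M : Matrix (Fin (n i + 1)) (Fin r) K) (e : ℕ)
    (j : Rw r e → Pol K n × (Fin r →₀ ℕ)) (T : Set (Var n))
    (hj : ∀ β, ∀ v ∈ (j β).1.vars, v.1 ≠ i → v ∈ T) : mnr i M e j ∈ supported K T := by
  unfold mnr
  rw [Matrix.det_apply']
  refine Subalgebra.sum_mem _ fun σ _ => ?_
  refine Subalgebra.mul_mem _ ?_ ?_
  · exact Subalgebra.intCast_mem _ _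
  · exact Subalgebra.prod_mem _ fun β _ => entc_supp i M _ _ _ T (hj β)

/-- specialisation of the minors -/
lemma pv_mnr (i : ι) (M : Matrix (Fin (n i + 1)) (Fin r) K) (e : ℕ)
    (j : Rw r e → Pol K n × (Fin r →₀ ℕ)) {F : Type} [Field F] [Algebra K F] (x : Vs F n) :
    pv F (mnr i M e j) x = Matrix.det (Matrix.of fun β β' : Rw r e =>
      coeff β.1 (monomial (j β').2 1 * sp i M x (j β').1)) := by
  unfold mnr pv
  rw [AlgHom.map_det]
  congr 1
  ext β β'
  rw [AlgHom.mapMatrix_apply, Matrix.map_apply, Matrix.of_apply, Matrix.of_apply, pv_entc]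
  rfl

/-- projection to the coefficients of degree `e` -/
noncomputable def prj (F : Type) [Field F] (r e : ℕ) : MvPolynomial (Fin r) F →ₗ[F] (Rw r e → F) where
  toFun P := fun β => coeff β.1 P
  map_add' P Q := by funext β; simp
  map_smul' c P := by funext β; simp

/-- a nonzero minor -/
lemma of_mnr (i : ι) (M : Matrix (Fin (n i + 1)) (Fin r) K) (G : Finset (Pol K n))
    (δ : Pol K n → ι → ℕ) (hδ : ∀ g ∈ G, ∀ m ∈ g.support, ∀ l, ∑ a, m ⟨l, a⟩ = δ g l) (e : ℕ)
    (j : Rw r e → Pol K n × (Fin r →₀ ℕ))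
    (hj : ∀ β, (j β).1 ∈ G ∧ (j β).2.degree + δ (j β).1 i = e)
    {F : Type} [Field F] [Algebra K F] (x : Vs F n) (h0 : pv F (mnr i M e j) x ≠ 0) :
    ∀ z : Fin r → AlgebraicClosure F, z ≠ 0 → Opn (AlgebraicClosure F) G
      (update (fun l a => algebraMap F (AlgebraicClosure F) (x l a)) i
        (fun a => ∑ b, algebraMap K (AlgebraicClosure F) (M a b) * z b)) := by
  intro z hz
  by_contra hcon
  unfold Opn at hcon
  push Not at hcon
  obtain ⟨b, hb⟩ : ∃ b, z b ≠ 0 := by
    by_contra h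
    push Not at h
    exact hz (funext h)
  rw [pv_mnr] at h0
  obtain ⟨N, hN⟩ : ∃ N : Matrix (Rw r e) (Rw r e) F, N = Matrix.of fun β β' : Rw r e =>
      coeff β.1 (monomial (j β').2 1 * sp i M x (j β').1) := ⟨_, rfl⟩
  rw [← hN] at h0
  have h1 : ((algebraMap F (AlgebraicClosure F)).mapMatrix N).det ≠ 0 := by
    rw [← RingHom.map_det]
    exact fun h => h0 ((algebraMap F (AlgebraicClosure F)).injective (by rw [h, map_zero]))
  obtain ⟨u, hu⟩ : ∃ u : Rw r e → AlgebraicClosure F, u = fun β => ∏ c, z c ^ (β.1 c) := ⟨_, rfl⟩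
  have h2 : Matrix.vecMul u ((algebraMap F (AlgebraicClosure F)).mapMatrix N) = 0 := by
    funext β'
    rw [Matrix.vecMul, dotProduct, Pi.zero_apply]
    have h3 : aeval z (monomial (j β').2 1 * sp i M x (j β').1) = 0 := by
      rw [map_mul, aeval_sp, hcon _ (hj β').1, mul_zero]
    have h4 : (monomial (j β').2 (1 : F) * sp i M x (j β').1).IsHomogeneous e := by
      have h5 : (monomial (j β').2 (1 : F)).IsHomogeneous ((j β').2.degree) :=
        isHomogeneous_monomial _ rfl
      have h6 := h5.mul (sp_hom i M x (j β').1 (d := δ (j β').1 i)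
        fun m hm => hδ _ (hj β').1 m hm i)
      rwa [(hj β').2] at h6
    rw [aeval_def, eval₂_eq'] at h3
    have h7 : (monomial (j β').2 (1 : F) * sp i M x (j β').1).support ⊆
        (univ : Finset (Fin r)).finsuppAntidiag e := by
      intro β hβ
      rw [mem_Rw]
      have h8 := h4 (mem_support_iff.1 hβ)
      rw [Finsupp.degree_eq_weight_one]
      exact h8
    rw [Finset.sum_subset h7 (fun β _ hβ => by rw [notMem_support_iff.1 hβ, map_zero, zero_mul])] at h3
    rw [← Finset.sum_coe_sort] at h3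
    rw [← h3]
    refine Finset.sum_congr rfl fun β _ => ?_
    rw [hu, RingHom.mapMatrix_apply, Matrix.map_apply, hN, Matrix.of_apply, mul_comm]
  have h3 := Matrix.eq_zero_of_vecMul_eq_zero h1 h2
  have h4 : u ⟨Finsupp.single b e, by rw [mem_Rw]; simp⟩ = 0 := by rw [h3]; rfl
  rw [hu] at h4
  dsimp only at h4
  rw [Finset.prod_eq_single b] at h4
  · rw [Finsupp.single_eq_same] at h4
    exact hb (eq_zero_of_pow_eq_zero h4)
  · intro c _ hc
    rw [Finsupp.single_eq_of_ne hc, pow_zero]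
  · intro h
    exact absurd (mem_univ _) h

/-- existence of a nonzero minor -/
lemma to_mnr (hr : 1 ≤ r) (i : ι) (M : Matrix (Fin (n i + 1)) (Fin r) K) (G : Finset (Pol K n))
    (δ : Pol K n → ι → ℕ) (hδ : ∀ g ∈ G, ∀ m ∈ g.support, ∀ l, ∑ a, m ⟨l, a⟩ = δ g l)
    {F : Type} [Field F] [Algebra K F] (x : Vs F n)
    (hM : ∀ z : Fin r → AlgebraicClosure F, z ≠ 0 → Opn (AlgebraicClosure F) G
      (update (fun l a => algebraMap F (AlgebraicClosure F) (x l a)) i
        (fun a => ∑ b, algebraMap K (AlgebraicClosure F) (M a b) * z b))) :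
    ∃ (e : ℕ) (j : Rw r e → Pol K n × (Fin r →₀ ℕ)),
      (∀ β, (j β).1 ∈ G ∧ (j β).2.degree + δ (j β).1 i = e) ∧ pv F (mnr i M e j) x ≠ 0 := by
  obtain ⟨I, hI⟩ : ∃ I : Ideal (MvPolynomial (Fin r) F),
    I = Ideal.span ((fun g => sp i M x g) '' (G : Set (Pol K n))) := ⟨_, rfl⟩
  have hX : ∀ b : Fin r, ∃ e : ℕ, (X b : MvPolynomial (Fin r) F) ^ e ∈ I := by
    intro b
    have h1 : (X b : MvPolynomial (Fin r) F) ∈ I.radical := by
      rw [← vanishingIdeal_zeroLocus_eq_radical (K := AlgebraicClosure F) I, mem_vanishingIdeal_iff]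
      intro z hz
      rw [aeval_X]
      by_contra hb
      have hz0 : z ≠ 0 := fun h => hb (by rw [h]; rfl)
      obtain ⟨g, hg, hgz⟩ := hM z hz0
      apply hgz
      rw [← aeval_sp]
      rw [mem_zeroLocus_iff] at hz
      exact hz _ (by rw [hI]; exact Ideal.subset_span ⟨g, hg, rfl⟩)
    exact h1
  choose ex hex using hX
  obtain ⟨e, he⟩ : ∃ e, e = ∑ b, ex b := ⟨_, rfl⟩
  have hmon : ∀ β : Fin r →₀ ℕ, β.degree = e → ∀ c : F, monomial β c ∈ I := by
    intro β hβ c
    have h1 : ∃ b, ex b ≤ β b := by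
      by_contra h
      push Not at h
      have h2 : ∑ b, β b < ∑ b, ex b :=
        Finset.sum_lt_sum_of_nonempty ⟨⟨0, by omega⟩, mem_univ _⟩ fun b _ => h b
      rw [Finsupp.degree_eq_sum] at hβ
      omega
    obtain ⟨b, hb⟩ := h1
    have h2 : (monomial β c : MvPolynomial (Fin r) F) =
        monomial (β - Finsupp.single b (ex b)) c * X b ^ ex b := by
      rw [X_pow_eq_monomial, monomial_mul, mul_one, tsub_add_cancel_of_le]
      exact Finsupp.single_le_iff.2 hb
    rw [h2]
    exact Ideal.mul_mem_left _ _ (hex b)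
  -- the columns
  let Col : Type := {c : Pol K n × (Fin r →₀ ℕ) // c.1 ∈ G ∧ c.2.degree + δ c.1 i = e}
  obtain ⟨v, hv⟩ : ∃ v : Col → (Rw r e → F), v = fun c => prj F r e (monomial c.1.2 1 * sp i M x c.1.1) :=
    ⟨_, rfl⟩
  have hU : ∀ P ∈ I, ∀ q : MvPolynomial (Fin r) F,
      prj F r e (q * P) ∈ Submodule.span F (Set.range v) := by
    intro P hP
    rw [hI] at hP
    refine Submodule.span_induction (p := fun P _ => ∀ q : MvPolynomial (Fin r) F,
      prj F r e (q * P) ∈ Submodule.span F (Set.range v)) ?_ ?_ ?_ ?_ hP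
    · rintro _ ⟨g, hg, rfl⟩ q
      rw [q.as_sum, Finset.sum_mul, map_sum]
      refine Submodule.sum_mem _ fun γ _ => ?_
      have h1 : (monomial γ (coeff γ q) : MvPolynomial (Fin r) F) = coeff γ q • monomial γ 1 := by
        rw [smul_monomial, smul_eq_mul, mul_one]
      rw [h1, smul_mul_assoc, map_smul]
      refine Submodule.smul_mem _ _ ?_
      by_cases h2 : γ.degree + δ g i = e
      · exact Submodule.subset_span ⟨⟨(g, γ), hg, h2⟩, by rw [hv]⟩
      · have h3 : prj F r e (monomial γ 1 * sp i M x g) = 0 := by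
          funext β
          show coeff β.1 (monomial γ 1 * sp i M x g) = 0
          by_contra h4
          have h5 : (monomial γ (1 : F) * sp i M x g).IsHomogeneous (γ.degree + δ g i) :=
            (isHomogeneous_monomial _ rfl).mul (sp_hom i M x g fun m hm => hδ g hg m hm i)
          have h6 := h5 h4
          have h7 := (mem_Rw _).1 β.2
          rw [Finsupp.degree_eq_weight_one] at h7
          exact h2 (h6.symm.trans h7)
        rw [h3]
        exact Submodule.zero_mem _
    · intro q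
      rw [mul_zero, map_zero]
      exact Submodule.zero_mem _
    · intro P Q _ _ h1 h2 q
      rw [mul_add, map_add]
      exact Submodule.add_mem _ (h1 q) (h2 q)
    · intro a P _ h1 q
      rw [smul_eq_mul, ← mul_assoc]
      exact h1 _
  have htop : Submodule.span F (Set.range v) = ⊤ := by
    rw [eq_top_iff]
    intro f _
    have h1 : f = prj F r e (1 * ∑ β : Rw r e, monomial β.1 (f β)) := by
      rw [one_mul]
      funext β
      show f β = coeff β.1 (∑ β : Rw r e, monomial β.1 (f β))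
      rw [coeff_sum, Finset.sum_eq_single β]
      · rw [coeff_monomial, if_pos rfl]
      · intro β' _ hne
        rw [coeff_monomial, if_neg (fun h => hne (Subtype.ext h))]
      · intro h
        exact absurd (mem_univ _) h
    rw [h1]
    exact hU _ (Ideal.sum_mem _ fun β _ => hmon _ ((mem_Rw _).1 β.2) _) 1
  obtain ⟨κ, a, _, hsp, hli⟩ := exists_linearIndependent' F v
  rw [htop] at hsp
  let B : Module.Basis κ F (Rw r e → F) := Module.Basis.mk hli hsp.ge
  let ε : κ ≃ Rw r e := B.indexEquiv (Pi.basisFun F (Rw r e))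
  refine ⟨e, fun β => (a (ε.symm β)).1, fun β => (a (ε.symm β)).2, ?_⟩
  rw [pv_mnr]
  obtain ⟨N, hN⟩ : ∃ N : Matrix (Rw r e) (Rw r e) F, N = Matrix.of fun β β' : Rw r e =>
      coeff β.1 (monomial (a (ε.symm β')).1.2 1 * sp i M x (a (ε.symm β')).1.1) := ⟨_, rfl⟩
  rw [← hN]
  have h1 : LinearIndependent F N.col := by
    have h2 : N.col = (v ∘ a) ∘ ε.symm := by
      funext β' β
      rw [hN, hv]
      rfl
    rw [h2]
    exact hli.comp _ ε.symm.injective
  rw [Matrix.linearIndependent_cols_iff_isUnit, Matrix.isUnit_iff_isUnit_det] at h1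
  exact h1.ne_zero

end

theorem sa : Pool.Agent.Q35.SM.S_A := by
  classical
  intro K _ _ ι _ _ n r i G hr hG
  choose! δ hδ using hG
  obtain ⟨S, hS⟩ : ∃ S : Set (Pol K n), S = {s | ∃ (M : Matrix (Fin (n i + 1)) (Fin r) K) (e : ℕ)
    (j : Rw r e → Pol K n × (Fin r →₀ ℕ)),
    (∀ β, (j β).1 ∈ G ∧ (j β).2.degree + δ (j β).1 i = e) ∧ s = mnr i M e j} := ⟨_, rfl⟩
  obtain ⟨G', hG'1, hG'2⟩ := (Submodule.fg_span_iff_fg_span_finset_subset (R := Pol K n) S).1
    (IsNoetherian.noetherian _)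
  refine ⟨G', ?_, ?_, ?_⟩
  · intro g hg
    have h1 := hG'1 hg
    rw [hS] at h1
    obtain ⟨M, e, j, hj, rfl⟩ := h1
    exact mnr_hom i M e j δ fun β m hm l => hδ _ (hj β).1 m hm l
  · intro g hg v hv
    have h1 := hG'1 hg
    rw [hS] at h1
    obtain ⟨M, e, j, hj, rfl⟩ := h1
    have h2 := mnr_supp i M e j {v | v.1 ≠ i ∧ ∃ h ∈ G, v ∈ h.vars}
      (fun β v hv hvi => ⟨hvi, _, (hj β).1, hv⟩)
    rw [mem_supported] at h2
    exact h2 (Finset.mem_coe.2 hv)
  · intro F _ _ x
    have key : Opn F G' x ↔ ∃ s ∈ S, pv F s x ≠ 0 := by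
      constructor
      · rintro ⟨s, hs, h⟩
        exact ⟨s, hG'1 hs, h⟩
      · rintro ⟨s, hs, h⟩
        by_contra hcon
        unfold Opn at hcon
        push Not at hcon
        have h1 : Submodule.span (Pol K n) S ≤
            RingHom.ker (aeval (fun v : Var n => x v.1 v.2) : Pol K n →ₐ[K] F) := by
          rw [hG'2, Submodule.span_le]
          intro g hg
          exact RingHom.mem_ker.2 (hcon g hg)
        exact h (RingHom.mem_ker.1 (h1 (Submodule.subset_span hs)))
    rw [key]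
    constructor
    · rintro ⟨s, hs, h⟩
      rw [hS] at hs
      obtain ⟨M, e, j, hj, rfl⟩ := hs
      exact ⟨M, of_mnr i M G δ hδ e j hj x h⟩
    · rintro ⟨M, hM⟩
      obtain ⟨e, j, hj, h⟩ := to_mnr hr i M G δ hδ x hM
      exact ⟨_, by rw [hS]; exact ⟨M, e, j, hj, rfl⟩, h⟩

end Pool.Agent.Q261.SMA
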